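import Pool.Agent.Helper45.KirchhoffBridge

open Pool.Agent.Helper45.KirchhoffStatement

/-- For `N > 4`, every bounded nonempty open set `Ω` in `ℝ^N` (in particular every bounded domain),
every `a ≥ 0` and every `b > 0`, the pair `(a, b)` has the multiplicity property. -/
theorem Pool.Agent.Results.MP_2d8c9a_an.CriticalKirchhoff.result :
    ∀ N : ℕ, 4 < N → ∀ Ω : Set (EuclideanSpace ℝ (Fin N)), IsOpen Ω → Ω.Nonempty →
      Bornology.IsBounded Ω → ∀ a b : ℝ, 0 ≤ a → 0 < b → MultiplicityProperty Ω a b :=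
  fun _ hN _ hΩ hne hb _ _ ha hb' =>
    Pool.Agent.Helper45.KirchhoffBridge.multiplicity hN hΩ hne hb ha hb'
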